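import Mathlib
import Pool.Agent.Q2.TN.Stm

/-!
# Project TN (helper2), job F4 (helper256)
-/

set_option autoImplicit false

namespace Q256.TN_F4

open Q2.TN Subgroup

theorem f4 : S_F4 := by
  intro p hp Γ V _ _ _ B x m hΓ hV hpow hB hm hxm hcomm hfix
  have := hΓ
  have := hV
  have : Fact p.Prime := ⟨hp⟩
  let φ : V →* V :=
    { toFun := fun v => x • v / v
      map_one' := by rw [smul_one, div_one]
      map_mul' := fun v w => by rw [smul_mul', mul_div_mul_comm] }
  have hφ : ∀ v, φ v = x • v / v := fun _ => rfl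
  have hstab : ∀ b ∈ B, ∀ v : V, b • φ v = φ (b • v) := by
    intro b hb v
    rw [hφ, hφ, smul_div', ← mul_smul, ← mul_smul, hcomm b hb]
  have hsmul : ∀ (b : B) (w : φ.range), (b : Γ) • (w : V) ∈ φ.range := by
    rintro b ⟨_, ⟨v, rfl⟩⟩
    exact ⟨(b : Γ) • v, (hstab b b.2 v).symm⟩
  let : MulAction B φ.range :=
    { smul := fun b w => ⟨(b : Γ) • (w : V), hsmul b w⟩
      one_smul := fun w => Subtype.ext (one_smul Γ (w : V))
      mul_smul := fun b c w => Subtype.ext (mul_smul (b : Γ) (c : Γ) (w : V)) }
  have hsm : ∀ (b : B) (w : φ.range), ((b • w : φ.range) : V) = (b : Γ) • (w : V) :=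
    fun _ _ => rfl
  -- the range is trivial
  have htriv : ∀ w : φ.range, w = 1 := by
    by_contra hcon
    push Not at hcon
    obtain ⟨w0, hw0⟩ := hcon
    have hdvd : p ∣ Nat.card φ.range := by
      have h1 : orderOf w0 = p := by
        refine orderOf_eq_prime ?_ hw0
        exact Subtype.ext (hpow (w0 : V))
      rw [← h1]
      exact orderOf_dvd_natCard w0
    obtain ⟨w, hw, hne⟩ := hB.exists_fixed_point_of_prime_dvd_card_of_fixed_point φ.range hdvd
      (a := 1) (by
        intro b
        refine Subtype.ext ?_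
        rw [hsm]
        exact smul_one _)
    obtain ⟨v, hv⟩ := w.2
    have hwfix : ∀ b ∈ B, b • (w : V) = w := by
      intro b hb
      have := congrArg Subtype.val (hw ⟨b, hb⟩)
      rw [hsm] at this
      exact this
    have hxw : x • (w : V) = w := hfix w hwfix
    have hxv : x • v = (w : V) * v := by
      rw [← hv, hφ, div_mul_cancel]
    have hiter : ∀ j : ℕ, x ^ j • v = (w : V) ^ j * v := by
      intro j
      induction j with
      | zero => simp
      | succ j ih =>
        rw [pow_succ', mul_smul, ih, smul_mul', smul_pow', hxw, hxv, pow_succ, mul_assoc]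
    have h2 := hiter m
    rw [hxm, one_smul] at h2
    have h3 : (w : V) ^ m = 1 := by
      have : (w : V) ^ m * v = 1 * v := by rw [← h2, one_mul]
      exact mul_right_cancel this
    have h4 : (w : V) = 1 := by
      have h5 := orderOf_dvd_of_pow_eq_one h3
      have h6 := orderOf_dvd_of_pow_eq_one (hpow (w : V))
      have h7 : orderOf (w : V) ∣ 1 := by
        rw [← hm]
        exact Nat.dvd_gcd h5 h6
      rw [← orderOf_eq_one_iff]
      exact Nat.dvd_one.1 h7
    exact hne (Subtype.ext h4).symm
  intro v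
  have h8 := congrArg Subtype.val (htriv ⟨φ v, ⟨v, rfl⟩⟩)
  have h9 : x • v / v = 1 := h8
  exact div_eq_one.1 h9

end Q256.TN_F4
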