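import Mathlib
import Pool.Agent.Q2.TN.Stm

/-!
# Project TN (helper2), job M14 (helper256)
-/

set_option autoImplicit false

namespace Q256.TN_M14

open Q2.TN Subgroup

/-- transport along an injective homomorphism -/
theorem pnil_of_injective (h1 : S_A1) (h2 : S_A2) (p : ℕ) (hp : p.Prime) (A B : Type) [Group A]
    [Group B] [Finite A] [Finite B] (f : A →* B) (hf : Function.Injective f) (hB : IsPNil p B) :
    IsPNil p A := by
  have h3 : IsPNil p f.range := h1 p hp B hB f.range
  let e := MonoidHom.ofInjective hf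
  exact h2 p hp f.range A e.symm.toMonoidHom e.symm.surjective h3

theorem mem_nm_iff {G : Type} [Group G] (P M : Subgroup G) (hPM : P ≤ M) (x : M) :
    x ∈ Nm (P.subgroupOf M) ↔ (x : G) ∈ Nm P := by
  rw [mem_normalizer_iff, mem_normalizer_iff]
  constructor
  · intro h g
    constructor
    · intro hg
      have := (h ⟨g, hPM hg⟩).1 (mem_subgroupOf.2 hg)
      exact mem_subgroupOf.1 this
    · intro hg
      have hM : g ∈ M := by
        have h1 : (x : G)⁻¹ * ((x : G) * g * (x : G)⁻¹) * (x : G) ∈ M :=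
          M.mul_mem (M.mul_mem (M.inv_mem x.2) (hPM hg)) x.2
        have e : (x : G)⁻¹ * ((x : G) * g * (x : G)⁻¹) * (x : G) = g := by group
        rwa [e] at h1
      exact mem_subgroupOf.1 ((h ⟨g, hM⟩).2 (mem_subgroupOf.2 hg))
  · intro h g
    rw [mem_subgroupOf, mem_subgroupOf]
    exact h g

theorem m14 (h4 : S_M4) (h1 : S_A1) (h2 : S_A2) (h6 : S_A6) : S_M14 := by
  intro p hp G _ _ P M hPM hP hN hC
  refine ⟨(h6 p hp G P hP).1 M hPM, ?_, ?_⟩
  · let f : Nm (P.subgroupOf M) →* Nm P :=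
      { toFun := fun x => ⟨((x : M) : G), (mem_nm_iff P M hPM x).1 x.2⟩
        map_one' := rfl
        map_mul' := fun _ _ => rfl }
    refine pnil_of_injective h1 h2 p hp _ _ f ?_ hN
    intro x y hxy
    have := congrArg Subtype.val hxy
    exact Subtype.ext (Subtype.ext this)
  · intro x hx H hH hcond
    have hx' : (x : G) ∉ Nm P := fun h => hx ((mem_nm_iff P M hPM x).2 h)
    have hcard : Nat.card (H.map M.subtype) = p := by
      rw [← hH]
      exact (Nat.card_congr (H.equivMapOfInjective M.subtype M.subtype_injective).toEquiv).symm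
    obtain ⟨B, hB, hprod, hcen⟩ := hC (x : G) hx' (H.map M.subtype) hcard (by
      rintro _ ⟨h, hh, rfl⟩
      obtain ⟨c1, c2, c3⟩ := hcond h hh
      refine ⟨h4 p hp G M ⟨h, c1, rfl⟩, mem_subgroupOf.1 c2, ?_⟩
      have := mem_subgroupOf.1 c3
      exact this)
    refine ⟨B.subgroupOf M, ?_, ?_, ?_⟩
    · intro y hy
      exact mem_subgroupOf.2 (hB (mem_subgroupOf.1 hy))
    · intro y hy
      obtain ⟨_, ⟨h, hh, rfl⟩, b, hb, he⟩ := hprod (y : G) (mem_subgroupOf.1 hy)
      exact ⟨h, hh, ⟨b, hPM (hB hb)⟩, mem_subgroupOf.2 hb, Subtype.ext he⟩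
    · intro y hy hyB z hz
      refine Subtype.ext ?_
      exact hcen (y : G) ⟨y, hy, rfl⟩ (mem_subgroupOf.1 hyB) (z : G) (mem_subgroupOf.1 hz)

end Q256.TN_M14
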