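import Pool.Agent.Q127.DJ.Stm

/-!
# Job DJ-INN: properties of the innovation
-/

set_option autoImplicit false

namespace Pool.Agent.Q256.DJ_INN

open MeasureTheory Filter Topology Pool.Agent.Q127.DJ

lemma BM.integrable {μ : Measure (ℕ → ℕ)} [IsProbabilityMeasure μ] {C : ℝ} {φ : (ℕ → ℕ) → ℝ} (h : BM C φ) :
    Integrable φ μ :=
  Integrable.of_bound h.1.aestronglyMeasurable C (Filter.Eventually.of_forall fun x => by
    rw [Real.norm_eq_abs]; exact h.2 x)

lemma BM.mul {C C' : ℝ} {φ ψ : (ℕ → ℕ) → ℝ} (h : BM C φ) (h' : BM C' ψ) : BM (C * C') (fun x => φ x * ψ x) :=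
  ⟨h.1.mul h'.1, fun x => by
    rw [abs_mul]
    exact mul_le_mul (h.2 x) (h'.2 x) (abs_nonneg _) ((abs_nonneg _).trans (h.2 x))⟩

lemma I_mem {m : ℕ} (f : ℕ → Fin m) (a : Fin m) (t : ℕ) (x : ℕ → ℕ) : 0 ≤ I f a t x ∧ I f a t x ≤ 1 := by
  unfold I; split_ifs <;> simp

lemma bm_I {m : ℕ} (f : ℕ → Fin m) (a : Fin m) (t : ℕ) : BM 1 (I f a t) := by
  constructor
  · have h : Measurable (fun n : ℕ => if f n = a then (1 : ℝ) else 0) := measurable_from_top
    exact h.comp (measurable_pi_apply t)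
  · intro x
    rw [abs_of_nonneg (I_mem f a t x).1]
    exact (I_mem f a t x).2

lemma dep_I {m : ℕ} (f : ℕ → Fin m) (a : Fin m) (t : ℕ) : Dep f (t + 1) (I f a t) := by
  intro x y h
  have h1 : f (x t) = f (y t) := congrFun h (Fin.last t)
  unfold I
  rw [h1]

lemma Dep.succ {m : ℕ} {f : ℕ → Fin m} {t : ℕ} {ψ : (ℕ → ℕ) → ℝ} (h : Dep f t ψ) : Dep f (t + 1) ψ := by
  intro x y hxy
  refine h x y ?_
  funext i
  exact congrFun hxy i.castSucc

theorem inn (h1 : S_ce1) (h2 : S_ce2) : S_inn := by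
  intro μ _ m f a t
  obtain ⟨d1, m1, b1⟩ := h1 μ m f t 1 (I f a t) zero_le_one (bm_I f a t)
  have hE0 : ∀ x, 0 ≤ E μ f t (I f a t) x := fun x =>
    div_nonneg (integral_nonneg fun y => (I_mem f a t y).1) measureReal_nonneg
  have hE1 : ∀ x, E μ f t (I f a t) x ≤ 1 := fun x => (le_abs_self _).trans (b1 x)
  have hg : BM 1 (g μ f a t) := by
    refine ⟨(bm_I f a t).1.sub m1, fun x => ?_⟩
    unfold g
    rw [abs_le]
    have e1 := I_mem f a t x
    have e2 := hE0 x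
    have e3 := hE1 x
    constructor <;> linarith
  have horth : ∀ (C : ℝ) (ψ : (ℕ → ℕ) → ℝ), BM C ψ → Dep f t ψ → ∫ x, ψ x * g μ f a t x ∂μ = 0 := by
    intro C ψ hψ hd
    have e1 := h2 μ m f t 1 C (I f a t) ψ (bm_I f a t) hψ hd
    have e2 : (fun x => ψ x * g μ f a t x) = fun x => ψ x * I f a t x - ψ x * E μ f t (I f a t) x := by
      funext x; unfold g; ring
    rw [e2, integral_sub (BM.integrable (BM.mul hψ (bm_I f a t))) (BM.integrable (BM.mul hψ ⟨m1, b1⟩)), e1, sub_self]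
  refine ⟨?_, hg, horth, ?_⟩
  · intro x y hxy
    have e1 := dep_I f a t x y hxy
    have e2 := (Dep.succ d1) x y hxy
    unfold g
    rw [e1, e2]
  · have e1 := horth 1 (E μ f t (I f a t)) ⟨m1, b1⟩ d1
    have e2 : (fun x => (g μ f a t x) ^ 2) =
        fun x => g μ f a t x * I f a t x - E μ f t (I f a t) x * g μ f a t x := by
      funext x
      have : g μ f a t x = I f a t x - E μ f t (I f a t) x := rfl
      rw [this]; ring
    rw [e2, integral_sub (BM.integrable (BM.mul hg (bm_I f a t))) (BM.integrable (BM.mul ⟨m1, b1⟩ hg)), e1, sub_zero]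

end Pool.Agent.Q256.DJ_INN
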