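import Mathlib

set_option autoImplicit false

/-!
The recursion `a(1) = N`, `a(n) = a(n-1) - gcd(a(n-1), P(n))`, its first zero and the polynomials
considered.
-/

namespace Pool.Agent.Q256.GcdRec

open Polynomial Filter

/-- The polynomials `P ∈ ℤ[x]` with `P(n) ≥ 0` for all integers `n ≥ 1` and `P(n) → ∞`. -/
def Adm (P : ℤ[X]) : Prop :=
  (∀ n : ℤ, 1 ≤ n → 0 ≤ P.eval n) ∧ Tendsto (fun n : ℕ => P.eval (n : ℤ)) atTop atTop

/-- The sequence `a(1) = N`, `a(n) = a(n-1) - gcd(a(n-1), P(n))` for `n ≥ 2` (`a(0) = N` is a dummy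
value). -/
def a (P : ℤ[X]) (N : ℕ) : ℕ → ℤ
  | 0 => N
  | 1 => N
  | (n + 2) => a P N (n + 1) - Int.gcd (a P N (n + 1)) (P.eval ((n + 2 : ℕ) : ℤ))

/-- The first index `n ≥ 1` with `a(n) = 0`. -/
noncomputable def f (P : ℤ[X]) (N : ℕ) : ℕ := sInf {n : ℕ | 1 ≤ n ∧ a P N n = 0}

end Pool.Agent.Q256.GcdRec
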