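import Mathlib
import Pool.Agent.Q256.GcdRecDef

set_option autoImplicit false

/-!
Basic facts on the recursion `a(1) = N`, `a(n) = a(n-1) - gcd(a(n-1), P(n))`.
-/

namespace Pool.Agent.Q256.GcdRec

open Polynomial Filter

theorem a_one (P : ℤ[X]) (N : ℕ) : a P N 1 = N := rfl

theorem a_succ (P : ℤ[X]) (N n : ℕ) (hn : 1 ≤ n) :
    a P N (n + 1) = a P N n - Int.gcd (a P N n) (P.eval ((n + 1 : ℕ) : ℤ)) := by
  obtain ⟨m, rfl⟩ : ∃ m, n = m + 1 := ⟨n - 1, by omega⟩
  rfl

/-- one step from a positive value: it decreases by at least one and stays nonnegative -/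
theorem step (P : ℤ[X]) (N n : ℕ) (hn : 1 ≤ n) (h : 0 < a P N n) :
    0 ≤ a P N (n + 1) ∧ a P N (n + 1) ≤ a P N n - 1 := by
  rw [a_succ P N n hn]
  have h1 : (Int.gcd (a P N n) (P.eval ((n + 1 : ℕ) : ℤ)) : ℤ) ∣ a P N n := Int.gcd_dvd_left ..
  have h2 := Int.le_of_dvd h h1
  have h3 : 0 < Int.gcd (a P N n) (P.eval ((n + 1 : ℕ) : ℤ)) :=
    Int.gcd_pos_of_ne_zero_left _ h.ne'
  constructor <;> omega

/-- there is a zero, at an index `≤ N + 1` -/
theorem exists_zero (P : ℤ[X]) (N : ℕ) : ∃ n, 1 ≤ n ∧ n ≤ N + 1 ∧ a P N n = 0 := by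
  by_contra hcon
  push Not at hcon
  have key : ∀ n, 1 ≤ n → n ≤ N + 1 → 0 ≤ a P N n ∧ a P N n ≤ N + 1 - n := by
    intro n hn
    induction n, hn using Nat.le_induction with
    | base => intro _; rw [a_one]; omega
    | succ n hn ih =>
      intro h
      have h1 := ih (by omega)
      have h2 : a P N n ≠ 0 := hcon n hn (by omega)
      have h3 := step P N n hn (by omega)
      push_cast
      omega
  have h := key (N + 1) (by omega) le_rfl
  have := hcon (N + 1) (by omega) le_rfl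
  push_cast at h
  omega

theorem f_spec (P : ℤ[X]) (N : ℕ) : 1 ≤ f P N ∧ a P N (f P N) = 0 := by
  have : (f P N) ∈ {n : ℕ | 1 ≤ n ∧ a P N n = 0} := by
    apply Nat.sInf_mem
    obtain ⟨n, h1, _, h3⟩ := exists_zero P N
    exact ⟨n, h1, h3⟩
  exact this

theorem f_le (P : ℤ[X]) (N : ℕ) : f P N ≤ N + 1 := by
  obtain ⟨n, h1, h2, h3⟩ := exists_zero P N
  exact (Nat.sInf_le (s := {n : ℕ | 1 ≤ n ∧ a P N n = 0}) ⟨h1, h3⟩).trans h2

theorem f_le_of (P : ℤ[X]) (N n : ℕ) (h1 : 1 ≤ n) (h : a P N n = 0) : f P N ≤ n :=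
  Nat.sInf_le (s := {n : ℕ | 1 ≤ n ∧ a P N n = 0}) ⟨h1, h⟩

/-- before the first zero all values are positive -/
theorem pos_of_lt (P : ℤ[X]) (N : ℕ) : ∀ n, 1 ≤ n → n < f P N → 0 < a P N n := by
  intro n hn
  induction n, hn using Nat.le_induction with
  | base =>
    intro h
    rw [a_one]
    rcases Nat.eq_zero_or_pos N with h0 | h0
    · exfalso
      have := f_le_of P N 1 le_rfl (by rw [a_one, h0]; rfl)
      omega
    · exact_mod_cast h0
  | succ n hn ih =>
    intro h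
    have h1 := (step P N n hn (ih (by omega))).1
    have h2 : a P N (n + 1) ≠ 0 := by
      intro h3
      have := f_le_of P N (n + 1) (by omega) h3
      omega
    omega

/-- the number `a(n-1) + n` is an invariant as long as the steps are `1`; in any case
`gcd(a(n-1), P(n)) = gcd(a(n-1), P(a(n-1) + n))`. -/
theorem gcd_shift (P : ℤ[X]) (A : ℤ) (n : ℤ) : Int.gcd A (P.eval n) = Int.gcd A (P.eval (A + n)) := by
  have h : A ∣ P.eval (A + n) - P.eval n := by
    have := Polynomial.sub_dvd_eval_sub (A + n) n P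
    simpa using this
  obtain ⟨c, hc⟩ := h
  have : P.eval (A + n) = P.eval n + A * c := by linarith
  rw [this, Int.gcd_add_mul_left_right]

/-- the sequence is nonincreasing -/
theorem a_le (P : ℤ[X]) (N n : ℕ) (hn : 1 ≤ n) : ∀ k, a P N (n + k) ≤ a P N n := by
  intro k
  induction k with
  | zero => simp
  | succ k ih =>
    rw [← add_assoc, a_succ P N (n + k) (by omega)]
    omega

theorem lt_f_of_pos (P : ℤ[X]) (N n : ℕ) (h : 0 < a P N n) : n < f P N := by
  by_contra hcon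
  push Not at hcon
  obtain ⟨h1, h2⟩ := f_spec P N
  have := a_le P N (f P N) h1 (n - f P N)
  rw [Nat.add_sub_cancel' hcon, h2] at this
  omega

/-- from index `n` at most `a(n)` further steps are needed -/
theorem f_le_add (P : ℤ[X]) (N n : ℕ) (hn : 1 ≤ n) (hnf : n ≤ f P N) :
    (f P N : ℤ) ≤ n + a P N n := by
  have key : ∀ k, n + k ≤ f P N → a P N (n + k) ≤ a P N n - k := by
    intro k
    induction k with
    | zero => intro _; simp
    | succ k ih =>
      intro hk
      have h1 := ih (by omega)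
      have h2 := (step P N (n + k) (by omega) (pos_of_lt P N _ (by omega) (by omega))).2
      rw [← add_assoc]
      push_cast
      omega
  have h := key (f P N - n) (by omega)
  rw [Nat.add_sub_cancel' hnf, (f_spec P N).2] at h
  omega

theorem add_le (P : ℤ[X]) (N : ℕ) : ∀ n, 1 ≤ n → n ≤ f P N → a P N n + n ≤ N + 1 := by
  intro n hn
  induction n, hn using Nat.le_induction with
  | base => intro _; rw [a_one]; simp
  | succ n hn ih =>
    intro h
    have h1 := ih (by omega)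
    have h2 := (step P N n hn (pos_of_lt P N _ (by omega) (by omega))).2
    push_cast
    omega

/-- A stage: if `P(M)` has a prime factor `≤ T ≤ a(n₀)`, where `M = a(n₀) + n₀ + 1`, then there is a
number `D ≥ 1` of steps in which the value decreases by at least `3 D / 2`. -/
theorem stage (P : ℤ[X]) (N T n₀ M : ℕ) (hn : 1 ≤ n₀) (hT : (T : ℤ) ≤ a P N n₀)
    (hM : (M : ℤ) = a P N n₀ + n₀ + 1) (hq : ∃ q : ℕ, q.Prime ∧ q ≤ T ∧ (q : ℤ) ∣ P.eval (M : ℤ)) :
    ∃ D, 1 ≤ D ∧ n₀ + D ≤ f P N ∧ a P N (n₀ + D) ≥ 0 ∧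
      3 * (D : ℤ) ≤ 2 * (a P N n₀ - a P N (n₀ + D)) := by
  classical
  -- the least prime factor
  have hex : ∃ q : ℕ, q.Prime ∧ (q : ℤ) ∣ P.eval (M : ℤ) := by
    obtain ⟨q, h1, _, h3⟩ := hq
    exact ⟨q, h1, h3⟩
  obtain ⟨hqp, hqd⟩ := Nat.find_spec hex
  have hmin : ∀ r : ℕ, r.Prime → (r : ℤ) ∣ P.eval (M : ℤ) → Nat.find hex ≤ r := fun r h1 h2 =>
    Nat.find_min' hex ⟨h1, h2⟩
  obtain ⟨q, hqdef⟩ : ∃ q, q = Nat.find hex := ⟨_, rfl⟩
  rw [← hqdef] at hqp hqd hmin
  have hqT : q ≤ T := by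
    obtain ⟨r, h1, h2, h3⟩ := hq
    exact (hmin r h1 h3).trans h2
  have hq2 := hqp.two_le
  -- the first index with nontrivial gcd
  have hex2 : ∃ i : ℕ, 1 < Int.gcd (a P N n₀ - i) (P.eval (M : ℤ)) ∨ q ≤ i := ⟨q, Or.inr le_rfl⟩
  obtain ⟨i, hidef⟩ : ∃ i, i = Nat.find hex2 := ⟨_, rfl⟩
  have hispec := Nat.find_spec hex2
  have himin : ∀ j, j < i → ¬ (1 < Int.gcd (a P N n₀ - j) (P.eval (M : ℤ)) ∨ q ≤ j) := by
    intro j hj
    rw [hidef] at hj
    exact Nat.find_min hex2 hj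
  rw [← hidef] at hispec
  have hr1 := Int.emod_nonneg (a P N n₀) (b := (q : ℤ)) (by omega)
  have hr2 := Int.emod_lt_of_pos (a P N n₀) (b := (q : ℤ)) (by omega)
  have hir : i ≤ ((a P N n₀) % q).toNat := by
    by_contra hcon
    push Not at hcon
    apply himin _ hcon
    left
    have hd : (q : ℤ) ∣ (Int.gcd (a P N n₀ - (((a P N n₀) % q).toNat : ℕ)) (P.eval (M : ℤ)) : ℤ) := by
      apply Int.dvd_coe_gcd _ hqd
      rw [Int.toNat_of_nonneg hr1]
      exact Int.dvd_self_sub_emod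
    have hpos : 0 < Int.gcd (a P N n₀ - (((a P N n₀) % q).toNat : ℕ)) (P.eval (M : ℤ)) := by
      apply Int.gcd_pos_of_ne_zero_left
      rw [Int.toNat_of_nonneg hr1]
      omega
    have := Int.le_of_dvd (by exact_mod_cast hpos) hd
    omega
  have hiq : i < q := by omega
  have hg : 1 < Int.gcd (a P N n₀ - i) (P.eval (M : ℤ)) := by
    rcases hispec with h | h
    · exact h
    · omega
  have hgq : q ≤ Int.gcd (a P N n₀ - i) (P.eval (M : ℤ)) := by
    have h1 : (Int.gcd (a P N n₀ - i) (P.eval (M : ℤ))).minFac.Prime :=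
      Nat.minFac_prime (by omega)
    have h2 : ((Int.gcd (a P N n₀ - i) (P.eval (M : ℤ))).minFac : ℤ) ∣ P.eval (M : ℤ) := by
      refine dvd_trans ?_ (Int.gcd_dvd_right (a P N n₀ - i) _)
      exact_mod_cast Nat.minFac_dvd _
    exact (hmin _ h1 h2).trans (Nat.minFac_le (by omega))
  -- the values during the stage
  have hval : ∀ j, j ≤ i → a P N (n₀ + j) = a P N n₀ - j := by
    intro j
    induction j with
    | zero => intro _; simp
    | succ j ih =>
      intro hj
      have h1 := ih (by omega)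
      rw [← add_assoc, a_succ P N (n₀ + j) (by omega), gcd_shift, h1]
      have e : a P N n₀ - (j : ℤ) + ((n₀ + j + 1 : ℕ) : ℤ) = M := by
        rw [hM]; push_cast; ring
      rw [e]
      have h2 := himin j (by omega)
      push Not at h2
      have h3 : 0 < Int.gcd (a P N n₀ - j) (P.eval (M : ℤ)) := by
        apply Int.gcd_pos_of_ne_zero_left
        omega
      have h4 : Int.gcd (a P N n₀ - j) (P.eval (M : ℤ)) = 1 := by
        have := h2.1
        omega
      rw [h4]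
      push_cast
      ring
  have hlast : a P N (n₀ + (i + 1)) = a P N n₀ - i - Int.gcd (a P N n₀ - i) (P.eval (M : ℤ)) := by
    rw [← add_assoc, a_succ P N (n₀ + i) (by omega), gcd_shift, hval i le_rfl]
    have e : a P N n₀ - (i : ℤ) + ((n₀ + i + 1 : ℕ) : ℤ) = M := by
      rw [hM]; push_cast; ring
    rw [e]
  have hpos : 0 < a P N (n₀ + i) := by
    rw [hval i le_rfl]
    omega
  have hnonneg := (step P N (n₀ + i) (by omega) hpos).1
  refine ⟨i + 1, by omega, ?_, by rw [← add_assoc]; exact hnonneg, ?_⟩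
  · have := lt_f_of_pos P N _ hpos
    omega
  · rw [hlast]
    push_cast
    omega

/-- If every `P(M)`, `T + 2 ≤ M ≤ N + 2`, has a prime factor `≤ T`, then the zero comes after at most
`(2 N + T) / 3 + 1` steps. -/
theorem f_le_of_small_factors (P : ℤ[X]) (N T : ℕ)
    (h : ∀ M : ℕ, T + 2 ≤ M → M ≤ N + 2 → ∃ q : ℕ, q.Prime ∧ q ≤ T ∧ (q : ℤ) ∣ P.eval (M : ℤ)) :
    3 * f P N ≤ 2 * N + T + 3 := by
  -- iterate the stages
  have key : ∀ m : ℕ, ∀ n₀, 1 ≤ n₀ → n₀ ≤ f P N → 0 ≤ a P N n₀ → a P N n₀ ≤ m →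
      3 * ((n₀ : ℤ) - 1) ≤ 2 * (N - a P N n₀) → 3 * (f P N : ℤ) ≤ 2 * N + T + 3 := by
    intro m
    induction m using Nat.strong_induction_on with
    | _ m ih =>
      intro n₀ hn hnf h0 hm hdec
      by_cases hT : (T : ℤ) ≤ a P N n₀
      · obtain ⟨M, hM⟩ : ∃ M : ℕ, (M : ℤ) = a P N n₀ + n₀ + 1 :=
          ⟨(a P N n₀ + n₀ + 1).toNat, Int.toNat_of_nonneg (by omega)⟩
        have hM1 : T + 2 ≤ M := by omega
        have hM2 : M ≤ N + 2 := by
          have := add_le P N n₀ hn hnf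
          omega
        obtain ⟨D, hD1, hD2, hD3, hD4⟩ := stage P N T n₀ M hn hT hM (h M hM1 hM2)
        have hlt : a P N (n₀ + D) < a P N n₀ := by omega
        refine ih (a P N (n₀ + D)).toNat (by omega) (n₀ + D) (by omega) hD2 hD3 (by omega) ?_
        push_cast
        omega
      · push Not at hT
        have := f_le_add P N n₀ hn hnf
        omega
  have h1 := (f_spec P N).1
  have := key N 1 le_rfl h1 (by rw [a_one]; omega) (by rw [a_one]) (by rw [a_one]; simp)
  omega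

/-- If `P(N + 2)` has no prime factor `≤ N` then `f(N) = N + 1`. -/
theorem f_eq_of_large_factors (P : ℤ[X]) (N : ℕ)
    (h : ∀ q : ℕ, q.Prime → q ≤ N → ¬ (q : ℤ) ∣ P.eval ((N + 2 : ℕ) : ℤ)) : f P N = N + 1 := by
  have hval : ∀ j, j ≤ N → a P N (1 + j) = N - j := by
    intro j
    induction j with
    | zero => intro _; rw [Nat.add_zero, a_one]; simp
    | succ j ih =>
      intro hj
      have h1 := ih (by omega)
      rw [← add_assoc, a_succ P N (1 + j) (by omega), gcd_shift, h1]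
      have e : (N : ℤ) - (j : ℤ) + ((1 + j + 1 : ℕ) : ℤ) = ((N + 2 : ℕ) : ℤ) := by
        push_cast; ring
      rw [e]
      have h3 : 0 < Int.gcd ((N : ℤ) - j) (P.eval ((N + 2 : ℕ) : ℤ)) := by
        apply Int.gcd_pos_of_ne_zero_left
        omega
      have h4 : Int.gcd ((N : ℤ) - j) (P.eval ((N + 2 : ℕ) : ℤ)) = 1 := by
        by_contra hne
        have hp := Nat.minFac_prime hne
        have hd1 : ((Int.gcd ((N : ℤ) - j) (P.eval ((N + 2 : ℕ) : ℤ))).minFac : ℤ) ∣ (N : ℤ) - j := by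
          refine dvd_trans ?_ (Int.gcd_dvd_left _ (P.eval ((N + 2 : ℕ) : ℤ)))
          exact_mod_cast Nat.minFac_dvd _
        have hd2 : ((Int.gcd ((N : ℤ) - j) (P.eval ((N + 2 : ℕ) : ℤ))).minFac : ℤ) ∣
            P.eval ((N + 2 : ℕ) : ℤ) := by
          refine dvd_trans ?_ (Int.gcd_dvd_right ((N : ℤ) - j) _)
          exact_mod_cast Nat.minFac_dvd _
        have hle := Int.le_of_dvd (by omega) hd1
        exact h _ hp (by omega) hd2
      rw [h4]
      push_cast
      ring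
  apply le_antisymm (f_le P N)
  by_contra hcon
  push Not at hcon
  obtain ⟨h1, h2⟩ := f_spec P N
  have h3 := hval (f P N - 1) (by omega)
  rw [Nat.add_sub_cancel' h1, h2] at h3
  omega

/-- The quotients `f(N) / N` are eventually bounded by `1 + 1 / N`. -/
theorem limsup_bdd (P : ℤ[X]) :
    IsBoundedUnder (· ≤ ·) atTop (fun N : ℕ => (f P N : ℝ) / N) := by
  refine ⟨2, ?_⟩
  rw [eventually_map]
  filter_upwards [eventually_ge_atTop 1] with N hN
  have h := f_le P N
  have hN0 : (0 : ℝ) < N := by exact_mod_cast hN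
  rw [div_le_iff₀ hN0]
  have h2 : (f P N : ℝ) ≤ N + 1 := by exact_mod_cast h
  have h3 : (1 : ℝ) ≤ N := by exact_mod_cast hN
  linarith

theorem limsup_cobdd (P : ℤ[X]) :
    IsCoboundedUnder (· ≤ ·) atTop (fun N : ℕ => (f P N : ℝ) / N) := by
  apply IsBoundedUnder.isCoboundedUnder_le
  refine ⟨0, ?_⟩
  rw [eventually_map]
  exact Eventually.of_forall (fun N => by positivity)

/-- upper bound for the upper limit -/
theorem limsup_le_of_eventually (P : ℤ[X]) (c d : ℝ)
    (h : ∀ᶠ N : ℕ in atTop, (f P N : ℝ) ≤ c * N + d) :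
    limsup (fun N : ℕ => (f P N : ℝ) / N) atTop ≤ c := by
  have h1 : Tendsto (fun N : ℕ => c + d / (N : ℝ)) atTop (nhds (c + 0)) :=
    tendsto_const_nhds.add (tendsto_const_div_atTop_nhds_zero_nat d)
  rw [add_zero] at h1
  rw [← h1.limsup_eq]
  apply limsup_le_limsup
  · filter_upwards [h, eventually_ge_atTop 1] with N hN hN1
    have hN0 : (0 : ℝ) < N := by exact_mod_cast hN1
    rw [div_le_iff₀ hN0, add_mul, div_mul_cancel₀ _ hN0.ne']
    exact hN
  · exact limsup_cobdd P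
  · exact h1.isBoundedUnder_le

theorem limsup_le_one (P : ℤ[X]) : limsup (fun N : ℕ => (f P N : ℝ) / N) atTop ≤ 1 := by
  apply limsup_le_of_eventually P 1 1
  exact Eventually.of_forall (fun N => by
    have := f_le P N
    rw [one_mul]
    exact_mod_cast this)

theorem limsup_ge_one (P : ℤ[X]) (h : ∃ᶠ N : ℕ in atTop, f P N = N + 1) :
    1 ≤ limsup (fun N : ℕ => (f P N : ℝ) / N) atTop := by
  apply le_limsup_of_frequently_le
  · refine (h.and_eventually (eventually_ge_atTop 1)).mono ?_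
    rintro N ⟨h1, h2⟩
    have hN0 : (0 : ℝ) < N := by exact_mod_cast h2
    rw [le_div_iff₀ hN0, h1]
    push_cast
    linarith
  · exact limsup_bdd P

/-- **Necessary condition.** If the upper limit is `1`, then for every `ε > 0` there are infinitely
many `M` such that all prime factors of `P(M)` are larger than `(1 - ε) M`. -/
theorem necessary (P : ℤ[X]) (h : limsup (fun N : ℕ => (f P N : ℝ) / N) atTop = 1) (ε : ℝ)
    (hε : 0 < ε) :
    ∃ᶠ M : ℕ in atTop, ∀ q : ℕ, q.Prime → (q : ℤ) ∣ P.eval (M : ℤ) → (1 - ε) * M < q := by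
  by_contra hcon
  rw [not_frequently] at hcon
  obtain ⟨M₀, hM₀⟩ := eventually_atTop.1 hcon
  -- wlog ε ≤ 1/2
  obtain ⟨δ, hδ⟩ : ∃ δ, δ = min ε (1 / 2) := ⟨_, rfl⟩
  have hδ0 : 0 < δ := by rw [hδ]; positivity
  have hδε : δ ≤ ε := by rw [hδ]; exact min_le_left _ _
  have hδ2 : δ ≤ 1 / 2 := by rw [hδ]; exact min_le_right _ _
  have hle : limsup (fun N : ℕ => (f P N : ℝ) / N) atTop ≤ 1 - δ / 3 := by
    apply limsup_le_of_eventually P (1 - δ / 3) 2
    filter_upwards [eventually_ge_atTop (2 * M₀)] with N hN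
    obtain ⟨T, hT⟩ : ∃ T, T = ⌊(1 - δ) * ((N : ℝ) + 2)⌋₊ := ⟨_, rfl⟩
    have hT1 : (T : ℝ) ≤ (1 - δ) * ((N : ℝ) + 2) := by
      rw [hT]
      exact Nat.floor_le (by nlinarith [Nat.cast_nonneg (α := ℝ) N])
    have hT2 : (1 - δ) * ((N : ℝ) + 2) < T + 1 := by
      rw [hT]
      exact Nat.lt_floor_add_one _
    have hTM : M₀ ≤ T + 2 := by
      have h1 : ((2 * M₀ : ℕ) : ℝ) ≤ N := by exact_mod_cast hN
      push_cast at h1
      have h2 : (M₀ : ℝ) < T + 1 := by nlinarith
      have h3 : M₀ < T + 1 := by exact_mod_cast h2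
      omega
    have hmain := f_le_of_small_factors P N T (by
      intro M hM1 hM2
      have h1 := hM₀ M (by omega)
      push Not at h1
      obtain ⟨q, hq1, hq2, hq3⟩ := h1
      refine ⟨q, hq1, ?_, hq2⟩
      have h4 : (q : ℝ) ≤ (1 - δ) * ((N : ℝ) + 2) := by
        have h5 : (M : ℝ) ≤ N + 2 := by exact_mod_cast hM2
        have h6 : (0 : ℝ) ≤ M := Nat.cast_nonneg M
        calc (q : ℝ) ≤ (1 - ε) * M := hq3
          _ ≤ (1 - δ) * M := by nlinarith
          _ ≤ (1 - δ) * (N + 2) := by nlinarith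
      rw [hT]
      exact Nat.le_floor h4)
    have h5 : (3 : ℝ) * f P N ≤ 2 * N + T + 3 := by exact_mod_cast hmain
    nlinarith
  rw [h] at hle
  linarith

/-- **Sufficient condition.** -/
theorem sufficient (P : ℤ[X]) (h : ∃ᶠ M : ℕ in atTop, ∀ q : ℕ, q.Prime → (q : ℤ) ∣ P.eval (M : ℤ) →
    M < q + 2) : limsup (fun N : ℕ => (f P N : ℝ) / N) atTop = 1 := by
  apply le_antisymm (limsup_le_one P)
  apply limsup_ge_one
  rw [frequently_atTop] at h ⊢
  intro b
  obtain ⟨M, hM1, hM2⟩ := h (b + 2)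
  refine ⟨M - 2, by omega, ?_⟩
  apply f_eq_of_large_factors
  intro q hq hqN hd
  have e : M - 2 + 2 = M := by omega
  rw [e] at hd
  have := hM2 q hq hd
  omega

end Pool.Agent.Q256.GcdRec
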