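import Pool.Agent.Q88.MK.Stm

/-!
Lemma jobs MZ and MO of the project MK (helper88).
-/

set_option autoImplicit false

namespace Pool.Agent.Q256.MK

open Pool.Agent.Q88.MK

lemma E_zero (s : ℝ) : E s (0, 0) = 0 := by
  simp [E]

lemma E_one (s : ℝ) : E s (1, 0) = 1 := by
  simp [E]

/-- JOB MZ. -/
theorem mz (h : S_opr) (h1 : S_sum) : S_mz := by
  classical
  intro s T m sep hsep hm
  induction T using Finset.induction_on with
  | empty =>
    intro _ _
    refine ⟨fun _ => 1, rfl, ?_, ?_⟩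
    · simp
    · intro x hx hx1
      have e : fs s (insert (0, 0) ∅) (fun _ => 1) x = 1 := by
        simp [fs, E_zero]
      rw [e]
      simp
      exact hx1
  | insert q₀ T hq₀ ih =>
    intro hE hS
    obtain ⟨a, ha0, hasum, hax⟩ := ih
      (fun q hq => hE q (Finset.mem_insert_of_mem hq))
      (fun q hq r hr => hS q (Finset.mem_insert_of_mem hq) r (Finset.mem_insert_of_mem hr))
    have hν := hE q₀ (Finset.mem_insert_self _ _)
    have hν0 : 0 < E s q₀ := lt_of_lt_of_le hsep hν.1
    have hq00 : q₀ ≠ (0, 0) := by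
      rintro rfl
      rw [E_zero] at hν0
      exact lt_irrefl _ hν0
    have hnot : q₀ ∉ insert ((0 : ℕ), (0 : ℕ)) T := by
      rw [Finset.mem_insert]
      rintro (h' | h')
      · exact hq00 h'
      · exact hq₀ h'
    have hsepS : ∀ q ∈ insert ((0 : ℕ), (0 : ℕ)) T, sep ≤ |E s q₀ - E s q| := by
      intro q hq
      rw [Finset.mem_insert] at hq
      rcases hq with rfl | hq
      · rw [E_zero, sub_zero, abs_of_pos hν0]
        exact hν.1
      · refine hS q₀ (Finset.mem_insert_self _ _) q (Finset.mem_insert_of_mem hq) ?_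
        rintro rfl
        exact hq₀ hq
    have hneS : ∀ q ∈ insert ((0 : ℕ), (0 : ℕ)) T, E s q ≠ E s q₀ := by
      intro q hq he
      have := hsepS q hq
      rw [he, sub_self, abs_zero] at this
      exact absurd hsep (not_lt.mpr this)
    have H := h s (insert (0, 0) T) a (E s q₀) (∏ q ∈ T, (E s q / (E s q + 1))) q₀ hν0 rfl hnot
      hneS hax
    have H1 := h1 s (insert (0, 0) T) a (E s q₀) m sep q₀ hν0 hν.2 hsep hnot hsepS
    refine ⟨op s (insert (0, 0) T) a (E s q₀) q₀, ?_, ?_, ?_⟩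
    · unfold op
      rw [if_neg (fun h' => hq00 h'.symm), ha0, E_zero, sub_zero, div_self hν0.ne', one_mul]
    · rw [Finset.insert_comm, Finset.card_insert_of_notMem hq₀]
      refine H1.trans ?_
      have hm0 : (0 : ℝ) < m := lt_of_lt_of_le hsep hm
      have h2 : (0 : ℝ) ≤ 2 * m / sep := by positivity
      calc 2 * m / sep * ∑ q ∈ insert (0, 0) T, |a q|
          ≤ 2 * m / sep * (2 * m / sep) ^ T.card := mul_le_mul_of_nonneg_left hasum h2
        _ = (2 * m / sep) ^ (T.card + 1) := by rw [pow_succ]; ring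
    · intro x hx hx1
      obtain ⟨e1, e2, e3⟩ := H x hx hx1
      rw [Finset.insert_comm]
      refine ⟨e1, e2.trans ?_, e3.trans ?_⟩
      · have : 0 ≤ x ^ (E s q₀) := Real.rpow_nonneg hx.le _
        linarith
      · rw [Finset.prod_insert hq₀, mul_comm]

/-- JOB MO. -/
theorem mo (h : S_opr) (h1 : S_sum) (h2 : S_mz) : S_mo := by
  classical
  intro s T m sep hsep hsep1 hm hE hS
  obtain ⟨a, ha0, hasum, hax⟩ := h2 s T m sep hsep (by linarith)
    (fun q hq => ⟨by linarith [(hE q hq).1], (hE q hq).2⟩) hS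
  have hsepS : ∀ q ∈ insert ((0 : ℕ), (0 : ℕ)) T, sep ≤ |(1 : ℝ) - E s q| := by
    intro q hq
    rw [Finset.mem_insert] at hq
    rcases hq with rfl | hq
    · rw [E_zero, sub_zero, abs_one]
      exact hsep1
    · have := (hE q hq).1
      rw [abs_sub_comm, abs_of_nonneg (by linarith)]
      linarith
  have hneS : ∀ q ∈ insert ((0 : ℕ), (0 : ℕ)) T, E s q ≠ 1 := by
    intro q hq he
    have := hsepS q hq
    rw [he, sub_self, abs_zero] at this
    exact absurd hsep (not_lt.mpr this)
  have hnot : ((1 : ℕ), (0 : ℕ)) ∉ insert ((0 : ℕ), (0 : ℕ)) T := fun hq => hneS _ hq (E_one s)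
  have H := h s (insert (0, 0) T) a 1 (∏ q ∈ T, (E s q / (E s q + 1))) (1, 0) one_pos (E_one s)
    hnot hneS hax
  have H1 := h1 s (insert (0, 0) T) a 1 m sep (1, 0) one_pos (by linarith) hsep hnot hsepS
  refine ⟨op s (insert (0, 0) T) a 1 (1, 0), ?_, ?_, ?_⟩
  · unfold op
    rw [if_neg (by simp), ha0, E_zero, sub_zero, div_one, one_mul]
  · refine H1.trans ?_
    have h3 : (0 : ℝ) ≤ 2 * m / sep := by positivity
    calc 2 * m / sep * ∑ q ∈ insert (0, 0) T, |a q|
        ≤ 2 * m / sep * (2 * m / sep) ^ T.card := mul_le_mul_of_nonneg_left hasum h3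
      _ = (2 * m / sep) ^ (T.card + 1) := by rw [pow_succ]; ring
  · intro x hx hx1
    obtain ⟨e1, e2, e3⟩ := H x hx hx1
    rw [Real.rpow_one] at e2
    refine ⟨e1, e2, e3.trans ?_⟩
    have hB : 0 ≤ ∏ q ∈ T, (E s q / (E s q + 1)) := by
      refine Finset.prod_nonneg fun q hq => ?_
      have := (hE q hq).1
      positivity
    linarith

end Pool.Agent.Q256.MK
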