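import Mathlib
import Pool.Agent.Q49.MR2.Stm

/-!
# Project MR2: job COD2 (adapted from `Pool.Agent.Q259.MR_COD`, for `Cyc2`)
-/

set_option autoImplicit false

open Module

namespace Q256.MR2_COD2

open Q49.MR Q49.MR2

section
variable {K L : Type} [Field K] [Finite K] [Field L] [Finite L] [Algebra K L] {σ : L ≃ₐ[K] L}

theorem cardL (h : Cyc2 σ) : Nat.card L = Nat.card K ^ 8 := by
  rw [Module.natCard_eq_pow_finrank (K := K), h.rank]

theorem pow8 (h : Cyc2 σ) (x : L) : x ^ (Nat.card K ^ 8) = x := by
  have := Fintype.ofFinite L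
  rw [← cardL h, Nat.card_eq_fintype_card]; exact FiniteField.pow_card x

theorem pow8m (h : Cyc2 σ) (x : L) (m r : ℕ) :
    x ^ (Nat.card K ^ (8 * m + r)) = x ^ (Nat.card K ^ r) := by
  induction m with
  | zero => simp
  | succ m ih =>
    have : 8 * (m + 1) + r = 8 + (8 * m + r) := by ring
    rw [this, pow_add, pow_mul, pow8 h, ih]

omit [Finite K] [Finite L] in
theorem iter_pow {s : ℕ} (hs : ∀ x : L, σ x = x ^ (Nat.card K ^ s)) (n : ℕ) (x : L) :
    (σ^[n]) x = x ^ (Nat.card K ^ (s * n)) := by
  induction n with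
  | zero => simp
  | succ n ih =>
    rw [Function.iterate_succ_apply', ih, hs, ← pow_mul, ← pow_add, mul_add, mul_one]

theorem tau (h : Cyc2 σ) (x : L) : x ^ (Nat.card K ^ 4) = σ (σ (σ (σ x))) := by
  obtain ⟨s, hs, hp⟩ := h.pow
  have h1 := iter_pow hp 4 x
  obtain ⟨t, rfl⟩ := hs
  have h3 : (2 * t + 1) * 4 = 8 * t + 4 := by ring
  rw [h3, pow8m h] at h1
  simpa [Function.iterate_succ_apply'] using h1.symm

theorem not_all_fixed (h : Cyc2 σ) (k2 : ∀ y : L, σ (σ (σ (σ y))) = y) : False := by
  classical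
  have := Fintype.ofFinite L
  have := Fintype.ofFinite K
  have hcard : 1 < Nat.card K := by
    rw [Nat.card_eq_fintype_card]; exact Fintype.one_lt_card
  have hP : (Polynomial.X ^ (Nat.card K ^ 4) - Polynomial.X : Polynomial L) ≠ 0 :=
    FiniteField.X_pow_card_pow_sub_X_ne_zero L (by norm_num) hcard
  have h1 : (Finset.univ : Finset L).card ≤
      (Polynomial.X ^ (Nat.card K ^ 4) - Polynomial.X : Polynomial L).natDegree := by
    refine Polynomial.card_le_degree_of_subset_roots
      (p := Polynomial.X ^ (Nat.card K ^ 4) - Polynomial.X) ?_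
    intro y _
    rw [Polynomial.mem_roots hP, Polynomial.IsRoot, Polynomial.eval_sub, Polynomial.eval_pow,
      Polynomial.eval_X, sub_eq_zero, tau h, k2]
  rw [FiniteField.X_pow_card_pow_sub_X_natDegree_eq L (by norm_num) hcard, Finset.card_univ,
    ← Nat.card_eq_fintype_card, cardL h] at h1
  have h2 : Nat.card K ^ 4 < Nat.card K ^ 8 := Nat.pow_lt_pow_right hcard (by norm_num)
  omega

end

section

variable {K L : Type} [Field K] [Field L] [Algebra K L] (σ : L ≃ₐ[K] L)

/-- the word with the coefficients `a`, `b` -/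
noncomputable def wd (δ : L) : L × L →ₗ[K] (L →ₗ[K] L) where
  toFun p :=
    { toFun := fun x => p.1 * x + p.2 * (σ x + δ * σ (σ (σ (σ (σ x)))))
      map_add' := by
        intro x y
        simp only [map_add]
        ring
      map_smul' := by
        intro c x
        simp only [RingHom.id_apply, Algebra.smul_def, map_mul, AlgEquiv.commutes]
        ring }
  map_add' := by
    intro p p'
    ext x
    simp only [LinearMap.coe_mk, AddHom.coe_mk, LinearMap.add_apply, Prod.fst_add, Prod.snd_add]
    ring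
  map_smul' := by
    intro c p
    ext x
    show (c • p.1) * x + (c • p.2) * (σ x + δ * σ (σ (σ (σ (σ x))))) =
      c • (p.1 * x + p.2 * (σ x + δ * σ (σ (σ (σ (σ x))))))
    simp only [Algebra.smul_def]
    ring

theorem wd_apply (δ : L) (p : L × L) (x : L) :
    wd σ δ p x = p.1 * x + p.2 * (σ x + δ * σ (σ (σ (σ (σ x))))) := rfl

end

/-- Job COD2. -/
theorem cod (h2 : S2_IND) : S2_COD := by
  intro K L _ _ _ _ _ σ hc s hs δ hM a b hab x y hx hy hli
  have hq : ∀ x : L, x ^ (Nat.card K ^ (4 + s)) = σ (σ (σ (σ (σ x)))) := by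
    intro x
    rw [← tau hc (σ x), hs x, ← pow_mul, ← pow_add, Nat.add_comm s 4]
  have hcode : ∀ f : L →ₗ[K] L, f ∈ codeC K L s δ ↔ ∃ p : L × L, wd σ δ p = f := by
    intro f
    constructor
    · rintro ⟨a, b, h⟩
      refine ⟨(a, b), ?_⟩
      ext x
      rw [wd_apply, h x, hq x, hs x]
    · rintro ⟨p, rfl⟩
      refine ⟨p.1, p.2, fun x => ?_⟩
      rw [wd_apply, hq x, hs x]
  have hinj : Function.Injective (wd σ δ) := by
    rw [injective_iff_map_eq_zero]
    rintro ⟨a, b⟩ h
    have hx : ∀ x : L, a * x + b * (σ x + δ * σ (σ (σ (σ (σ x))))) = 0 := by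
      intro x
      have := congrArg (fun f : L →ₗ[K] L => f x) h
      simpa only [wd_apply, LinearMap.zero_apply] using this
    have hW : ∀ x ∈ E4 σ, a * x + (b * (1 + δ)) * σ x + 0 * σ (σ x) + 0 * σ (σ (σ x)) = 0 := by
      intro x hxW
      have h4 : σ (σ (σ (σ x))) = x := hxW
      have := hx x
      rw [h4] at this
      linear_combination this
    obtain ⟨ha, hb, -, -⟩ := h2 K L σ hc a (b * (1 + δ)) 0 0 hW
    rcases mul_eq_zero.1 hb with hb | hb
    · rw [ha, hb]; rfl
    · by_cases hb0 : b = 0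
      · rw [ha, hb0]; rfl
      · exfalso
        refine not_all_fixed hc ?_
        intro y
        have h5 : b * (σ y - σ (σ (σ (σ (σ y))))) = 0 := by
          have := hx y
          rw [ha] at this
          linear_combination this - b * σ (σ (σ (σ (σ y)))) * hb
        rcases mul_eq_zero.1 h5 with h | h
        · exact absurd h hb0
        · exact σ.injective (sub_eq_zero.1 h).symm
  have hfd : FiniteDimensional K L := FiniteDimensional.of_finrank_pos (by rw [hc.rank]; norm_num)
  have hdim : finrank K (codeC K L s δ) = 16 := by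
    have heq : codeC K L s δ = LinearMap.range (wd σ δ) := by
      ext f
      rw [hcode f]
      exact Iff.rfl
    rw [heq, LinearMap.finrank_range_of_inj hinj, Module.finrank_prod, hc.rank]
  have hrn : ∀ f : L →ₗ[K] L, finrank K (LinearMap.range f) + finrank K (LinearMap.ker f) = 8 := by
    intro f
    rw [LinearMap.finrank_range_add_finrank_ker, hc.rank]
  have hker2 : ∀ (f : L →ₗ[K] L) (x y : L), f x = 0 → f y = 0 → LinearIndependent K ![x, y] →
      2 ≤ finrank K (LinearMap.ker f) := by
    intro f x y hx hy hli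
    have hli2 : LinearIndependent K (![⟨x, hx⟩, ⟨y, hy⟩] : Fin 2 → LinearMap.ker f) := by
      apply LinearIndependent.of_comp (LinearMap.ker f).subtype
      convert hli using 1
      ext i
      fin_cases i <;> rfl
    have := hli2.fintype_card_le_finrank
    simpa using this
  obtain ⟨d, ⟨f0, hf0, hf0n, hf0d⟩, hmin, hfin⟩ := hM
  rw [hdim, hc.rank] at hfin
  have hd : d = 7 := by omega
  have hne : wd σ δ (a, b) ≠ 0 := by
    intro h
    have : ((a, b) : L × L) = 0 := hinj (by rw [h, map_zero])
    rw [Prod.mk_eq_zero] at this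
    rcases hab with h' | h'
    · exact h' this.1
    · exact h' this.2
  have h7 := hmin _ ((hcode _).2 ⟨(a, b), rfl⟩) hne
  have h8 := hrn (wd σ δ (a, b))
  have h9 := hker2 (wd σ δ (a, b)) x y (by rw [wd_apply]; exact hx) (by rw [wd_apply]; exact hy)
    hli
  omega

end Q256.MR2_COD2
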