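import Mathlib
import Pool.Agent.Q49.MR2.Stm

/-!
# Project MR2: job G2 (copy of `Pool.Agent.Q186.MR.G` and of `Q49.MR.hil` for `Cyc2`)
-/

set_option autoImplicit false

open Module

namespace Q256.MR2_G2

open Q49.MR Q49.MR2

section
variable {K L : Type} [Field K] [Finite K] [Field L] [Finite L] [Algebra K L] {σ : L ≃ₐ[K] L}

theorem cardL (h : Cyc2 σ) : Nat.card L = Nat.card K ^ 8 := by
  rw [Module.natCard_eq_pow_finrank (K := K), h.rank]

theorem pow8 (h : Cyc2 σ) (x : L) : x ^ (Nat.card K ^ 8) = x := by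
  have := Fintype.ofFinite L
  rw [← cardL h, Nat.card_eq_fintype_card]; exact FiniteField.pow_card x

theorem pow8m (h : Cyc2 σ) (x : L) (m r : ℕ) :
    x ^ (Nat.card K ^ (8 * m + r)) = x ^ (Nat.card K ^ r) := by
  induction m with
  | zero => simp
  | succ m ih =>
    have : 8 * (m + 1) + r = 8 + (8 * m + r) := by ring
    rw [this, pow_add, pow_mul, pow8 h, ih]

omit [Finite K] [Finite L] in
theorem iter_pow {s : ℕ} (hs : ∀ x : L, σ x = x ^ (Nat.card K ^ s)) (n : ℕ) (x : L) :
    (σ^[n]) x = x ^ (Nat.card K ^ (s * n)) := by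
  induction n with
  | zero => simp
  | succ n ih =>
    rw [Function.iterate_succ_apply', ih, hs, ← pow_mul, ← pow_add, mul_add, mul_one]

theorem tau (h : Cyc2 σ) (x : L) : x ^ (Nat.card K ^ 4) = σ (σ (σ (σ x))) := by
  obtain ⟨s, hs, hp⟩ := h.pow
  have h1 := iter_pow hp 4 x
  obtain ⟨t, rfl⟩ := hs
  have h3 : (2 * t + 1) * 4 = 8 * t + 4 := by ring
  rw [h3, pow8m h] at h1
  simpa [Function.iterate_succ_apply'] using h1.symm

theorem not_all_fixed (h : Cyc2 σ) (k2 : ∀ y : L, σ (σ (σ (σ y))) = y) : False := by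
  classical
  have := Fintype.ofFinite L
  have := Fintype.ofFinite K
  have hcard : 1 < Nat.card K := by
    rw [Nat.card_eq_fintype_card]; exact Fintype.one_lt_card
  have hP : (Polynomial.X ^ (Nat.card K ^ 4) - Polynomial.X : Polynomial L) ≠ 0 :=
    FiniteField.X_pow_card_pow_sub_X_ne_zero L (by norm_num) hcard
  have h1 : (Finset.univ : Finset L).card ≤
      (Polynomial.X ^ (Nat.card K ^ 4) - Polynomial.X : Polynomial L).natDegree := by
    refine Polynomial.card_le_degree_of_subset_roots
      (p := Polynomial.X ^ (Nat.card K ^ 4) - Polynomial.X) ?_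
    intro y _
    rw [Polynomial.mem_roots hP, Polynomial.IsRoot, Polynomial.eval_sub, Polynomial.eval_pow,
      Polynomial.eval_X, sub_eq_zero, tau h, k2]
  rw [FiniteField.X_pow_card_pow_sub_X_natDegree_eq L (by norm_num) hcard, Finset.card_univ,
    ← Nat.card_eq_fintype_card, cardL h] at h1
  have h2 : Nat.card K ^ 4 < Nat.card K ^ 8 := Nat.pow_lt_pow_right hcard (by norm_num)
  omega

end

section

variable {K L : Type} [Field K] [Finite K] [Field L] [Finite L] [Algebra K L] {σ : L ≃ₐ[K] L}

theorem hil (h : Cyc2 σ) (h8 : ∀ x : L, σ (σ (σ (σ (σ (σ (σ (σ x))))))) = x) (ρ : L)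
    (hρ : ρ * σ (σ (σ (σ ρ))) = 1) : ∃ x : L, x ≠ 0 ∧ σ (σ (σ (σ x))) = ρ * x := by
  by_contra hne
  push Not at hne
  have key : ∀ y : L, y + σ (σ (σ (σ ρ))) * σ (σ (σ (σ y))) = 0 := by
    intro y
    by_contra hy
    apply hne _ hy
    simp only [map_add, map_mul, h8]
    linear_combination (-(σ (σ (σ (σ y))))) * hρ
  have k1 := key 1
  simp only [map_one, mul_one] at k1
  refine not_all_fixed h ?_
  intro y
  have h1 := key y
  have h2 : σ (σ (σ (σ ρ))) = -1 := by linear_combination k1
  rw [h2] at h1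
  linear_combination -h1

end

section

variable {K L : Type} [Field K] [Field L] [Algebra K L]

theorem li_mul (σ : L ≃ₐ[K] L) {x l : L} (hx : x ≠ 0) (hl : σ l ≠ l) :
    LinearIndependent K ![x, l * x] := by
  rw [LinearIndependent.pair_iff]
  intro s t hst
  rw [Algebra.smul_def, Algebra.smul_def] at hst
  have h1 : algebraMap K L s + algebraMap K L t * l = 0 := by
    have : (algebraMap K L s + algebraMap K L t * l) * x = 0 := by linear_combination hst
    rcases mul_eq_zero.mp this with h | h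
    · exact h
    · exact absurd h hx
  have ht : t = 0 := by
    by_contra ht
    have ht' : algebraMap K L t ≠ 0 := by
      rwa [Ne, map_eq_zero]
    apply hl
    have h2 : l = algebraMap K L (-s / t) := by
      rw [map_div₀, map_neg, eq_div_iff ht']
      linear_combination h1
    rw [h2]
    exact AlgEquiv.commutes σ _
  subst ht
  refine ⟨?_, rfl⟩
  rw [map_zero, zero_mul, add_zero, map_eq_zero] at h1
  exact h1

end

/-- Job G2. -/
theorem ggg (h1 : S2_B8) (h3 : S2_IND) : S2_G := by
  intro K L _ _ _ _ _ σ hσ δ hδ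
  have hb8 := h1 K L σ hσ
  have hne : ∀ x : L, x ≠ 0 → σ x ≠ 0 := fun x hx => by
    rwa [Ne, map_eq_zero]
  have hδ4 : σ (σ (σ (σ δ))) ≠ 0 := hne _ (hne _ (hne _ (hne _ hδ)))
  rintro (⟨l, hl, hrel⟩ | hN)
  · unfold Q49.MR.Rel at hrel
    have hA : σ l - l ≠ 0 := sub_ne_zero.mpr hl
    have hB : σ (σ (σ (σ (σ l)))) - σ (σ (σ (σ l))) ≠ 0 := by
      have := hne _ (hne _ (hne _ (hne _ hA)))
      simpa only [map_sub] using this
    have hprod : δ * σ (σ (σ (σ δ))) *
        ((σ (σ (σ (σ (σ l)))) - l) * (σ l - σ (σ (σ (σ l))))) ≠ 0 := by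
      rw [← hrel]
      exact mul_ne_zero hA hB
    have hC : σ (σ (σ (σ (σ l)))) - l ≠ 0 := by
      intro hc
      apply hprod
      rw [hc]
      ring
    have hD : σ l - σ (σ (σ (σ l))) ≠ 0 := by
      intro hc
      apply hprod
      rw [hc]
      ring
    obtain ⟨z, hz, hz4⟩ := hil hσ hb8
      (-(σ l - l) / (δ * (σ (σ (σ (σ (σ l)))) - l))) (by
        simp only [map_div₀, map_neg, map_sub, map_mul]
        rw [hb8 l]
        field_simp
        linear_combination hrel)
    set x := σ.symm z with hxdef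
    have hx1 : σ x = z := σ.apply_symm_apply z
    have hx0 : x ≠ 0 := by
      intro hc
      rw [hc, map_zero] at hx1
      exact hz hx1.symm
    have hzz : δ * (σ (σ (σ (σ (σ l)))) - l) * σ (σ (σ (σ z))) = -(σ l - l) * z := by
      rw [hz4]
      field_simp
    refine ⟨-(z + δ * σ (σ (σ (σ z)))) / x, 1, Or.inr one_ne_zero, x, l * x,
      li_mul σ hx0 hl, ?_, ?_⟩
    · rw [hx1]
      field_simp
      ring
    · simp only [map_mul]
      rw [hx1]
      field_simp
      linear_combination hzz
  · obtain ⟨z, hz, hz4⟩ := hil hσ hb8 (-δ⁻¹) (by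
        simp only [map_neg, map_inv₀]
        field_simp
        exact hN.symm)
    set x := σ.symm z with hxdef
    have hx1 : σ x = z := σ.apply_symm_apply z
    have hx0 : x ≠ 0 := by
      intro hc
      rw [hc, map_zero] at hx1
      exact hz hx1.symm
    have hzz : z + δ * σ (σ (σ (σ z))) = 0 := by
      rw [hz4]
      field_simp
      ring
    -- an element u with u_4 = u, u_1 ≠ u
    obtain ⟨u, hu4, hu1⟩ : ∃ u : L, σ (σ (σ (σ u))) = u ∧ σ u ≠ u := by
      by_contra hcon
      push Not at hcon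
      have := h3 K L σ hσ (-1) 1 0 0 (by
        intro y hy
        have := hcon y hy
        linear_combination this)
      exact one_ne_zero this.2.1
    refine ⟨0, 1, Or.inr one_ne_zero, x, u * x, li_mul σ hx0 hu1, ?_, ?_⟩
    · rw [hx1]
      linear_combination hzz
    · simp only [map_mul]
      rw [hx1, hu4]
      linear_combination (σ u) * hzz

end Q256.MR2_G2
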